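import Pool.Agent.Y472.K.DefsX

set_option autoImplicit false

/-!
TKX-GBD: bounds of an analytic potential at complex points.
-/

namespace Pool.Agent.Y936.TKX

open Finset Filter Topology MeasureTheory Pool.Agent.Y472.K

theorem cst_add {ι : Type} (u v : (ι → ℝ) × ℝ) : cst (u + v) = cst u + cst v := by
  unfold cst
  ext i <;> simp

theorem cst_smul {ι : Type} (t : ℝ) (v : (ι → ℝ) × ℝ) : cst (t • v) = (t : ℂ) • cst v := by
  unfold cst
  ext i <;> simp

theorem cst_norm {ι : Type} [Fintype ι] (v : (ι → ℝ) × ℝ) : ‖cst v‖ = ‖v‖ := by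
  unfold cst
  rw [Prod.norm_def, Prod.norm_def]
  congr 1
  · apply le_antisymm
    · rw [pi_norm_le_iff_of_nonneg (norm_nonneg _)]
      intro i
      rw [Complex.norm_real]
      exact norm_le_pi_norm v.1 i
    · rw [pi_norm_le_iff_of_nonneg (norm_nonneg _)]
      intro i
      have := norm_le_pi_norm (fun i => (v.1 i : ℂ)) i
      rwa [Complex.norm_real] at this
  · exact Complex.norm_real _

theorem cst_re_im {ι : Type} (z : (ι → ℂ) × ℂ) :
    z = cst (fun i => (z.1 i).re, z.2.re) + Complex.I • cst (fun i => (z.1 i).im, z.2.im) := by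
  unfold cst
  ext i
  · simp only [Prod.fst_add, Prod.smul_fst, Pi.add_apply, Pi.smul_apply, smul_eq_mul]
    rw [mul_comm]
    exact (Complex.re_add_im _).symm
  · simp only [Prod.snd_add, Prod.smul_snd, smul_eq_mul]
    rw [mul_comm]
    exact (Complex.re_add_im _).symm

theorem two_coeffs (a b : ℂ) (C δ : ℝ) (hδ : 0 < δ)
    (h : ∀ t : ℝ, 0 < t → t < δ → ‖(t : ℂ) * a + (t : ℂ) ^ 2 * b‖ ≤ C * t ^ 3) :
    a = 0 ∧ b = 0 := by
  have ha : a = 0 := by
    rw [← norm_le_zero_iff]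
    refine le_of_forall_pos_le_add fun ε hε => ?_
    obtain ⟨M, hM⟩ : ∃ M, M = ‖b‖ + |C| + 1 := ⟨_, rfl⟩
    have hM0 : 0 < M := by rw [hM]; positivity
    obtain ⟨t, ht⟩ : ∃ t, t = min (δ / 2) (min 1 (ε / M)) := ⟨_, rfl⟩
    have ht0 : 0 < t := by rw [ht]; positivity
    have htδ : t < δ := by
      have : t ≤ δ / 2 := by rw [ht]; exact min_le_left _ _
      linarith
    have ht1 : t ≤ 1 := by rw [ht]; exact (min_le_right _ _).trans (min_le_left _ _)
    have htε : t * M ≤ ε := by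
      have : t ≤ ε / M := by rw [ht]; exact (min_le_right _ _).trans (min_le_right _ _)
      rwa [le_div_iff₀ hM0] at this
    have h1 := h t ht0 htδ
    have h2 : ‖(t : ℂ) * a‖ ≤ ‖(t : ℂ) * a + (t : ℂ) ^ 2 * b‖ + ‖(t : ℂ) ^ 2 * b‖ := by
      have := norm_sub_le ((t : ℂ) * a + (t : ℂ) ^ 2 * b) ((t : ℂ) ^ 2 * b)
      simpa using this
    rw [norm_mul, norm_mul, norm_pow, Complex.norm_real, Real.norm_of_nonneg ht0.le] at h2
    have h3 : t * ‖a‖ ≤ t * (C * t ^ 2 + t * ‖b‖) := by nlinarith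
    have h4 : ‖a‖ ≤ C * t ^ 2 + t * ‖b‖ := le_of_mul_le_mul_left h3 ht0
    have h5 : C * t ^ 2 ≤ |C| * t := by
      have h6 : C * t ^ 2 ≤ |C| * t ^ 2 := mul_le_mul_of_nonneg_right (le_abs_self C) (by positivity)
      have h7 : |C| * t ^ 2 ≤ |C| * t := mul_le_mul_of_nonneg_left (by nlinarith) (abs_nonneg C)
      linarith
    rw [hM] at htε
    nlinarith
  refine ⟨ha, ?_⟩
  subst ha
  rw [← norm_le_zero_iff]
  refine le_of_forall_pos_le_add fun ε hε => ?_
  obtain ⟨M, hM⟩ : ∃ M, M = |C| + 1 := ⟨_, rfl⟩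
  have hM0 : 0 < M := by rw [hM]; positivity
  obtain ⟨t, ht⟩ : ∃ t, t = min (δ / 2) (ε / M) := ⟨_, rfl⟩
  have ht0 : 0 < t := by rw [ht]; positivity
  have htδ : t < δ := by
    have : t ≤ δ / 2 := by rw [ht]; exact min_le_left _ _
    linarith
  have htε : t * M ≤ ε := by
    have : t ≤ ε / M := by rw [ht]; exact min_le_right _ _
    rwa [le_div_iff₀ hM0] at this
  have h1 := h t ht0 htδ
  rw [mul_zero, zero_add, norm_mul, norm_pow, Complex.norm_real, Real.norm_of_nonneg ht0.le] at h1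
  have h3 : t ^ 2 * ‖b‖ ≤ t ^ 2 * (C * t) := by nlinarith
  have h4 : ‖b‖ ≤ C * t := le_of_mul_le_mul_left h3 (by positivity)
  have h5 : C * t ≤ |C| * t := mul_le_mul_of_nonneg_right (le_abs_self C) ht0.le
  rw [hM] at htε
  nlinarith

theorem gbd : S_GBD := by
  intro ι _ Ψ ws D R S hAX
  obtain ⟨w0, hw0⟩ : ∃ w0 : (ι → ℂ) × ℂ, w0 = cst (ws, 0) := ⟨_, rfl⟩
  have han := hAX.an
  rw [← hw0] at han ⊢
  obtain ⟨p, hp⟩ := han
  -- the second order Taylor polynomial
  have hO := hp.isBigO_sub_partialSum_pow 3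
  obtain ⟨C1, hC1⟩ := hO.bound
  obtain ⟨r1, hr1, hball1⟩ := Metric.eventually_nhds_iff.1 hC1
  obtain ⟨r2, C2, hr2, htay⟩ := hAX.tay
  have hpart : ∀ z : (ι → ℂ) × ℂ, p.partialSum 3 z =
      p 0 (fun _ => z) + p 1 (fun _ => z) + p 2 (fun _ => z) := by
    intro z
    unfold FormalMultilinearSeries.partialSum
    rw [Finset.sum_range_succ, Finset.sum_range_succ, Finset.sum_range_succ, Finset.sum_range_zero,
      zero_add]
  have hT : ∀ z : (ι → ℂ) × ℂ, ‖z‖ < r1 →
      ‖Ψ (w0 + z) - (p 0 (fun _ => z) + p 1 (fun _ => z) + p 2 (fun _ => z))‖ ≤ C1 * ‖z‖ ^ 3 := by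
    intro z hz
    have h1 := @hball1 z (by rwa [dist_zero_right])
    rw [hpart] at h1
    rwa [Real.norm_of_nonneg (by positivity : 0 ≤ ‖z‖ ^ 3)] at h1
  have hΨ0 : ∀ z : (ι → ℂ) × ℂ, p 0 (fun _ => z) = Ψ w0 := fun z => hp.coeff_zero _
  have hreal : ∀ u : (ι → ℝ) × ℝ, ‖u‖ < r2 →
      ‖Ψ (w0 + cst u) - D + R u + Complex.I * S u‖ ≤ C2 * ‖u‖ ^ 3 := by
    intro u hu
    have h1 := htay u hu
    have h2 : cst (fun i => ws i + u.1 i, u.2) = w0 + cst u := by
      rw [hw0, ← cst_add]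
      congr 1
      ext i
      · rfl
      · simp
    rwa [h2] at h1
  have hD : Ψ w0 = D := by
    have h1 := hreal 0 (by simpa using hr2)
    have h2 : cst (0 : (ι → ℝ) × ℝ) = 0 := by
      unfold cst
      ext i <;> simp
    rw [h2, add_zero, QuadraticMap.map_zero, QuadraticMap.map_zero] at h1
    simp only [norm_zero, Complex.ofReal_zero, mul_zero, add_zero] at h1
    rw [zero_pow (by norm_num), mul_zero] at h1
    have h3 := norm_le_zero_iff.1 h1
    exact sub_eq_zero.1 h3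
  have hp1smul : ∀ (t : ℂ) (z : (ι → ℂ) × ℂ),
      p 1 (fun _ => t • z) = t * p 1 (fun _ => z) := by
    intro t z
    have := (p 1).map_smul_univ (fun _ => t) (fun _ => z)
    simpa using this
  have hp2smul : ∀ (t : ℂ) (z : (ι → ℂ) × ℂ),
      p 2 (fun _ => t • z) = t ^ 2 * p 2 (fun _ => z) := by
    intro t z
    have := (p 2).map_smul_univ (fun _ => t) (fun _ => z)
    simpa using this
  -- comparison of the coefficients
  have hco : ∀ v : (ι → ℝ) × ℝ, p 1 (fun _ => cst v) = 0 ∧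
      p 2 (fun _ => cst v) + (R v + Complex.I * S v) = 0 := by
    intro v
    have hv : 0 < ‖v‖ + 1 := by positivity
    refine two_coeffs _ _ ((|C1| + |C2|) * ‖v‖ ^ 3) (min r1 r2 / (‖v‖ + 1)) (by positivity) ?_
    intro t ht0 ht
    rw [lt_div_iff₀ hv] at ht
    have htv : ‖t • v‖ = t * ‖v‖ := by rw [norm_smul, Real.norm_of_nonneg ht0.le]
    have htv' : ‖t • v‖ < min r1 r2 := by rw [htv]; nlinarith
    have hn1 : ‖cst (t • v)‖ < r1 := by
      rw [cst_norm]
      exact htv'.trans_le (min_le_left _ _)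
    have h1 := hT (cst (t • v)) hn1
    have h2 := hreal (t • v) (htv'.trans_le (min_le_right _ _))
    rw [hΨ0, hD, cst_smul, hp1smul, hp2smul, ← cst_smul, cst_norm, htv] at h1
    rw [QuadraticMap.map_smul, QuadraticMap.map_smul, htv] at h2
    have h3 : (t : ℂ) * p 1 (fun _ => cst v) +
        (t : ℂ) ^ 2 * (p 2 (fun _ => cst v) + (R v + Complex.I * S v)) =
        (Ψ (w0 + cst (t • v)) - D + ((t * t) • R v : ℝ) + Complex.I * ((t * t) • S v : ℝ)) -
        (Ψ (w0 + cst (t • v)) - (D + t * p 1 (fun _ => cst v) +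
          (t : ℂ) ^ 2 * p 2 (fun _ => cst v))) := by
      simp only [smul_eq_mul, Complex.ofReal_mul]
      ring
    rw [h3]
    refine (norm_sub_le _ _).trans ?_
    have h4 : C1 * (t * ‖v‖) ^ 3 ≤ |C1| * (t * ‖v‖) ^ 3 :=
      mul_le_mul_of_nonneg_right (le_abs_self _) (by positivity)
    have h5 : C2 * (t * ‖v‖) ^ 3 ≤ |C2| * (t * ‖v‖) ^ 3 :=
      mul_le_mul_of_nonneg_right (le_abs_self _) (by positivity)
    calc _ ≤ C2 * (t * ‖v‖) ^ 3 + C1 * (t * ‖v‖) ^ 3 := add_le_add h2 h1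
      _ ≤ |C2| * (t * ‖v‖) ^ 3 + |C1| * (t * ‖v‖) ^ 3 := add_le_add h5 h4
      _ = _ := by ring
  have hp1 : ∀ z : (ι → ℂ) × ℂ, p 1 (fun _ => z) = 0 := by
    intro z
    have h1 := cst_re_im z
    obtain ⟨a, ha⟩ : ∃ a : (ι → ℝ) × ℝ, a = (fun i => (z.1 i).re, z.2.re) := ⟨_, rfl⟩
    obtain ⟨b, hb⟩ : ∃ b : (ι → ℝ) × ℝ, b = (fun i => (z.1 i).im, z.2.im) := ⟨_, rfl⟩
    rw [← ha, ← hb] at h1
    have h2 : p 1 (fun _ => z) = p 1 (fun _ => cst a) + p 1 (fun _ => Complex.I • cst b) := by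
      rw [h1]
      have h3 := (p 1).map_update_add (fun _ => 0) 0 (cst a) (Complex.I • cst b)
      have h4 : ∀ x : (ι → ℂ) × ℂ, Function.update (fun _ : Fin 1 => (0 : (ι → ℂ) × ℂ)) 0 x =
          fun _ => x := by
        intro x
        funext i
        rw [Subsingleton.elim i 0, Function.update_self]
      rw [h4, h4, h4] at h3
      exact h3
    rw [h2, hp1smul, (hco a).1, (hco b).1]
    simp
  have hp2 : ∀ v : (ι → ℝ) × ℝ, p 2 (fun _ => cst v) = -(R v) - Complex.I * S v := by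
    intro v
    have := (hco v).2
    linear_combination this
  have hp2re : ∀ v : (ι → ℝ) × ℝ, (p 2 (fun _ => cst v)).re = -(R v) := by
    intro v
    rw [hp2]
    simp
  -- lower bound of the quadratic form
  have hRc : Continuous fun v : (ι → ℝ) × ℝ => R v := by
    have h1 : (fun v : (ι → ℝ) × ℝ => R v) = fun v => -(p 2 (fun _ => cst v)).re := by
      funext v
      rw [hp2re, neg_neg]
    rw [h1]
    have h2 : Continuous fun v : (ι → ℝ) × ℝ => cst v := by
      unfold cst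
      fun_prop
    have h3 : Continuous fun v : (ι → ℝ) × ℝ => p 2 (fun _ => cst v) :=
      (p 2).cont.comp (continuous_pi fun _ => h2)
    fun_prop
  obtain ⟨c, hc0, hc⟩ : ∃ c : ℝ, 0 < c ∧ ∀ v : (ι → ℝ) × ℝ, 2 * c * ‖v‖ ^ 2 ≤ R v := by
    have hne : (Metric.sphere (0 : (ι → ℝ) × ℝ) 1).Nonempty := by
      refine ⟨(0, 1), ?_⟩
      rw [mem_sphere_zero_iff_norm, Prod.norm_def]
      simp
    obtain ⟨v0, hv0, hmin⟩ := (isCompact_sphere (0 : (ι → ℝ) × ℝ) 1).exists_isMinOn hne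
      hRc.continuousOn
    have hv0n : ‖v0‖ = 1 := by simpa using hv0
    have hv00 : v0 ≠ 0 := by
      intro h
      rw [h, norm_zero] at hv0n
      exact zero_ne_one hv0n
    have hpos := hAX.pos v0 hv00
    refine ⟨R v0 / 2, by positivity, fun v => ?_⟩
    by_cases hv : v = 0
    · subst hv
      simp
    · have hvn : 0 < ‖v‖ := norm_pos_iff.2 hv
      have h1 : ‖(‖v‖⁻¹) • v‖ = 1 := by
        rw [norm_smul, norm_inv, norm_norm, inv_mul_cancel₀ hvn.ne']
      have h2 := hmin (mem_sphere_zero_iff_norm.2 h1)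
      simp only [Set.mem_setOf_eq] at h2
      rw [QuadraticMap.map_smul, smul_eq_mul] at h2
      have h3 : R v0 * ‖v‖ ^ 2 ≤ (‖v‖⁻¹ * ‖v‖⁻¹ * R v) * ‖v‖ ^ 2 :=
        mul_le_mul_of_nonneg_right h2 (by positivity)
      have h4 : (‖v‖⁻¹ * ‖v‖⁻¹ * R v) * ‖v‖ ^ 2 = R v := by
        field_simp
      linarith
  -- analyticity near the point
  obtain ⟨r3, hr3, hball3⟩ := Metric.eventually_nhds_iff.1
    (AnalyticAt.eventually_analyticAt (⟨p, hp⟩ : AnalyticAt ℂ Ψ w0))
  obtain ⟨M, hM⟩ : ∃ M, M = ‖p 2‖ := ⟨_, rfl⟩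
  have hM0 : 0 ≤ M := by rw [hM]; exact norm_nonneg _
  obtain ⟨B, hB⟩ : ∃ B, B = |C1| := ⟨_, rfl⟩
  have hB0 : 0 ≤ B := by rw [hB]; exact abs_nonneg _
  have hT' : ∀ z : (ι → ℂ) × ℂ, ‖z‖ < r1 →
      ‖Ψ (w0 + z) - (D + p 2 (fun _ => z))‖ ≤ B * ‖z‖ ^ 3 := by
    intro z hz
    have h1 := hT z hz
    rw [hΨ0, hD, hp1, add_zero] at h1
    refine h1.trans ?_
    rw [hB]
    exact mul_le_mul_of_nonneg_right (le_abs_self _) (by positivity)
  obtain ⟨r, hr⟩ : ∃ r, r = min (r1 / 2) (min (r3 / 4) (c / (8 * (B + 1)))) := ⟨_, rfl⟩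
  have hr0 : 0 < r := by rw [hr]; positivity
  have hrr1 : 2 * r ≤ r1 := by
    have : r ≤ r1 / 2 := by rw [hr]; exact min_le_left _ _
    linarith
  have hrr3 : 4 * r ≤ r3 := by
    have : r ≤ r3 / 4 := by rw [hr]; exact (min_le_right _ _).trans (min_le_left _ _)
    linarith
  have hrB : 8 * r * B ≤ c := by
    have h1 : r ≤ c / (8 * (B + 1)) := by
      rw [hr]; exact (min_le_right _ _).trans (min_le_right _ _)
    rw [le_div_iff₀ (by positivity)] at h1
    nlinarith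
  refine ⟨r, c, 2 * M ^ 2 / c + M + c, hr0, hc0, ?_, ?_, ?_⟩
  · intro z hz
    have h1 := @hball3 z (lt_of_lt_of_le (Metric.mem_ball.1 hz) hrr3)
    exact h1.differentiableAt.differentiableWithinAt
  · intro v s hs hsv
    have hn : ‖s • cst v‖ = ‖s‖ * ‖v‖ := by rw [norm_smul, cst_norm]
    have h1 := hT' (s • cst v) (by rw [hn]; linarith)
    rw [hp2smul, hn] at h1
    have hs0 : 0 < ‖s‖ := norm_pos_iff.2 hs
    have h2 : (Ψ (w0 + s • cst v) - D) / s ^ 2 = p 2 (fun _ => cst v) +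
        (Ψ (w0 + s • cst v) - (D + s ^ 2 * p 2 (fun _ => cst v))) / s ^ 2 := by
      field_simp
      ring
    rw [h2, Complex.add_re, hp2re]
    have h3 : ((Ψ (w0 + s • cst v) - (D + s ^ 2 * p 2 (fun _ => cst v))) / s ^ 2).re ≤
        c * ‖v‖ ^ 2 := by
      refine (Complex.re_le_norm _).trans ?_
      rw [norm_div, norm_pow, div_le_iff₀ (by positivity)]
      refine h1.trans ?_
      have h4 : B * (‖s‖ * ‖v‖) ≤ c := by
        have h5 : B * (‖s‖ * ‖v‖) ≤ B * r := mul_le_mul_of_nonneg_left hsv.le hB0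
        nlinarith
      calc B * (‖s‖ * ‖v‖) ^ 3 = B * (‖s‖ * ‖v‖) * (‖s‖ * ‖v‖) ^ 2 := by ring
        _ ≤ c * (‖s‖ * ‖v‖) ^ 2 := mul_le_mul_of_nonneg_right h4 (by positivity)
        _ = _ := by ring
    have := hc v
    linarith
  · intro u z hu hz
    obtain ⟨a, ha⟩ : ∃ a, a = ‖u‖ := ⟨_, rfl⟩
    obtain ⟨b, hb⟩ : ∃ b, b = ‖z‖ := ⟨_, rfl⟩
    have ha0 : 0 ≤ a := by rw [ha]; exact norm_nonneg _
    have hb0 : 0 ≤ b := by rw [hb]; exact norm_nonneg _
    have hn : ‖cst u + z‖ ≤ a + b := by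
      refine (norm_add_le _ _).trans ?_
      rw [cst_norm, ha, hb]
    have h1 := hT' (cst u + z) (by linarith)
    rw [← add_assoc] at h1
    have h2 : p 2 (fun _ => cst u + z) = p 2 (fun _ => cst u) + p 2 ![cst u, z] +
        p 2 ![z, cst u] + p 2 (fun _ => z) := by
      have e : ∀ x y : (ι → ℂ) × ℂ, ∀ (x' : (ι → ℂ) × ℂ),
          p 2 ![x + x', y] = p 2 ![x, y] + p 2 ![x', y] := by
        intro x y x'
        have h3 := (p 2).map_update_add ![x, y] 0 x x'
        have h4 : ∀ w, Function.update ![x, y] 0 w = ![w, y] := by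
          intro w
          funext i
          fin_cases i <;> simp
        rw [h4, h4, h4] at h3
        exact h3
      have e' : ∀ x y : (ι → ℂ) × ℂ, ∀ (y' : (ι → ℂ) × ℂ),
          p 2 ![x, y + y'] = p 2 ![x, y] + p 2 ![x, y'] := by
        intro x y y'
        have h3 := (p 2).map_update_add ![x, y] 1 y y'
        have h4 : ∀ w, Function.update ![x, y] 1 w = ![x, w] := by
          intro w
          funext i
          fin_cases i <;> simp
        rw [h4, h4, h4] at h3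
        exact h3
      have e2 : ∀ x : (ι → ℂ) × ℂ, (fun _ : Fin 2 => x) = ![x, x] := by
        intro x
        funext i
        fin_cases i <;> simp
      rw [e2, e2, e2, e, e', e']
      ring
    have hb1 : ∀ x y : (ι → ℂ) × ℂ, ‖p 2 ![x, y]‖ ≤ M * (‖x‖ * ‖y‖) := by
      intro x y
      have := (p 2).le_opNorm ![x, y]
      rw [Fin.prod_univ_two] at this
      rw [hM]
      simpa using this
    have h3 : (Ψ (w0 + cst u + z)).re ≤
        D - R u + M * (a * b) + M * (a * b) + M * (b * b) + B * (a + b) ^ 3 := by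
      have h4 : Ψ (w0 + cst u + z) = D + p 2 (fun _ => cst u) + p 2 ![cst u, z] +
          p 2 ![z, cst u] + p 2 (fun _ => z) +
          (Ψ (w0 + cst u + z) - (D + p 2 (fun _ => cst u + z))) := by
        rw [h2]
        ring
      rw [h4]
      simp only [Complex.add_re, Complex.ofReal_re]
      rw [hp2re]
      have k1 := (Complex.re_le_norm _).trans (hb1 (cst u) z)
      have k2 := (Complex.re_le_norm _).trans (hb1 z (cst u))
      have k3 : (p 2 (fun _ => z)).re ≤ M * (b * b) := by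
        have e2 : (fun _ : Fin 2 => z) = ![z, z] := by
          funext i
          fin_cases i <;> simp
        rw [e2, hb]
        exact (Complex.re_le_norm _).trans (hb1 z z)
      have k4 := (Complex.re_le_norm _).trans h1
      rw [cst_norm, ← ha, ← hb] at k1 k2
      have k5 : B * ‖cst u + z‖ ^ 3 ≤ B * (a + b) ^ 3 :=
        mul_le_mul_of_nonneg_left (pow_le_pow_left₀ (norm_nonneg _) hn 3) hB0
      nlinarith
    refine h3.trans ?_
    have hcu := hc u
    rw [← ha] at hcu hu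
    rw [← hb] at hz
    rw [← ha, ← hb]
    have h5 : B * (a + b) ^ 3 ≤ c / 2 * (a ^ 2 + b ^ 2) := by
      have h6 : (a + b) ^ 3 ≤ (2 * r) * (2 * (a ^ 2 + b ^ 2)) := by
        have h7 : (a + b) ^ 2 ≤ 2 * (a ^ 2 + b ^ 2) := by nlinarith [sq_nonneg (a - b)]
        calc (a + b) ^ 3 = (a + b) * (a + b) ^ 2 := by ring
          _ ≤ (2 * r) * (2 * (a ^ 2 + b ^ 2)) :=
            mul_le_mul (by linarith) h7 (by positivity) (by linarith)
      have h8 : B * (a + b) ^ 3 ≤ B * ((2 * r) * (2 * (a ^ 2 + b ^ 2))) :=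
        mul_le_mul_of_nonneg_left h6 hB0
      have h9 : 0 ≤ a ^ 2 + b ^ 2 := by positivity
      nlinarith
    have h10 : 2 * M * (a * b) ≤ c / 2 * a ^ 2 + 2 * M ^ 2 / c * b ^ 2 := by
      have h11 : 0 ≤ (c / 2 * a - M * b) ^ 2 := sq_nonneg _
      have h12 : c * (2 * M * (a * b)) ≤ c * (c / 2 * a ^ 2 + 2 * M ^ 2 / c * b ^ 2) := by
        have : c * (c / 2 * a ^ 2 + 2 * M ^ 2 / c * b ^ 2) =
            c ^ 2 / 2 * a ^ 2 + 2 * M ^ 2 * b ^ 2 := by
          field_simp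
        rw [this]
        nlinarith
      exact le_of_mul_le_mul_left h12 hc0
    have h13 : 0 ≤ c * b ^ 2 := by positivity
    nlinarith

end Pool.Agent.Y936.TKX
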